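import Pool.Agent.H752.PL.Stubs3
import Pool.Agent.H752.GE.N10
import Pool.Agent.H620R2.Gauge.S
import Pool.Agent.H411R2.PL.Sp

/-!
# Task M4 (helper365): the codes are sparse, exact form
(adaptation of Pool.Agent.H411R2.PL.Sp)
-/

namespace Pool.Agent.H752.PL

open Pool.Agent.NPC Pool.Agent.H620R2.Gauge Finset H568R2 Pool.Agent.H752.GE Filter

namespace M4sp

open Classical in
/-- counting -/
theorem count (ρ : ℕ → ℕ) (k R : ℕ) (hρ : ∀ e, e ≤ ρ e) (hR : ∀ e, R ≤ ρ e) (N : ℕ) (g : ℕ)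
    (hg : ∀ j : ℕ, R * j ^ k ≤ Nat.log 2 (Nat.log 2 N) → j ≤ g) :
    ((Finset.range N).filter (fun i => ∃ e x,
        str i = codeS (fun e m => 2 ^ (ρ e * (Nat.log 2 m + ρ e + 1) ^ k)) e x)).card ≤
      g * 2 ^ (2 ^ g) := by
  set Y : ℕ := Nat.log 2 (Nat.log 2 N) with hY
  have hsub : (Finset.range N).filter (fun i => ∃ e x,
        str i = codeS (fun e m => 2 ^ (ρ e * (Nat.log 2 m + ρ e + 1) ^ k)) e x) ⊆
      (range g ×ˢ range (2 ^ (2 ^ g))).image fun p =>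
        idx (codeS (fun e m => 2 ^ (ρ e * (Nat.log 2 m + ρ e + 1) ^ k)) p.1 (str p.2)) := by
    intro i hi
    rw [Finset.mem_filter, Finset.mem_range] at hi
    obtain ⟨hiN, e, x, hs⟩ := hi
    rw [Finset.mem_image]
    have hlen : (str i).length = Nat.log 2 (i + 1) := length_str i
    have hlog : Nat.log 2 (i + 1) ≤ Nat.log 2 N := Nat.log_mono_right (by omega)
    have h3 : 2 ^ (ρ e * (Nat.log 2 x.length + ρ e + 1) ^ k) ≤ Nat.log 2 N := by
      refine le_trans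
        (L4sp.length_codeS (fun e m => 2 ^ (ρ e * (Nat.log 2 m + ρ e + 1) ^ k)) e x) ?_
      rw [← hs, hlen]
      exact hlog
    have h4 : ρ e * (Nat.log 2 x.length + ρ e + 1) ^ k ≤ Y := by
      rw [hY]
      exact Nat.le_log_of_pow_le (by norm_num) h3
    have h5 : Nat.log 2 x.length + ρ e + 1 ≤ g :=
      hg _ (le_trans (Nat.mul_le_mul (hR e) le_rfl) h4)
    have h6 : x.length + 1 ≤ 2 ^ g := by
      have h7 : x.length < 2 ^ (Nat.log 2 x.length + 1) := Nat.lt_pow_succ_log_self (by norm_num) _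
      have h8 : 2 ^ (Nat.log 2 x.length + 1) ≤ 2 ^ g :=
        Nat.pow_le_pow_right (by norm_num) (by omega)
      omega
    refine ⟨(e, idx x), ?_, ?_⟩
    · rw [Finset.mem_product]
      have := hρ e
      refine ⟨Finset.mem_range.2 (show e < g by omega), Finset.mem_range.2 ?_⟩
      have h7 := idx_lt x
      have h8 : 2 ^ (x.length + 1) ≤ 2 ^ (2 ^ g) := Nat.pow_le_pow_right (by norm_num) h6
      show idx x < 2 ^ (2 ^ g)
      omega
    · show idx (codeS (fun e m => 2 ^ (ρ e * (Nat.log 2 m + ρ e + 1) ^ k)) e (str (idx x))) = i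
      rw [str_idx, ← hs, idx_str]
  refine le_trans (Finset.card_le_card hsub) (le_trans Finset.card_image_le ?_)
  rw [Finset.card_product, Finset.card_range, Finset.card_range]

end M4sp

open M4sp in
open Classical in
theorem M4_core (k : ℕ) (q : ℕ → Polynomial ℕ) (ε : ℝ) (hk : 1 ≤ k) (hε : 0 < ε) :
    ∃ ρ : ℕ → ℕ,
    (∀ e m, (q e).eval m < 2 ^ (ρ e * (Nat.log 2 m + ρ e + 1) ^ k)) ∧
    ∀ᶠ N : ℕ in atTop, (((Finset.range N).filter (fun i => ∃ e x,
      str i = codeS (fun e m => 2 ^ (ρ e * (Nat.log 2 m + ρ e + 1) ^ k)) e x)).card : ℝ) ≤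
      2 ^ (2 : ℝ) ^ (ε * Real.logb 2 (Real.logb 2 N)) ^ (1 / k : ℝ) := by
  choose C hC using fun e => N10.bound (q e) 1
  set R : ℕ := ⌈2 ^ k / ε⌉₊ + 1 with hR
  have hk0 : (0 : ℝ) < k := by exact_mod_cast hk
  have hk1 : (0 : ℝ) ≤ 1 / (k : ℝ) := by positivity
  have hR0 : (0 : ℝ) < R := by rw [hR]; positivity
  have hRr : 2 ^ k / ε ≤ (R : ℝ) := by
    refine le_trans (Nat.le_ceil _) ?_
    rw [hR]
    push_cast
    linarith
  refine ⟨fun e => C e + e + R, fun e m => ?_, ?_⟩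
  · have h1 : m ≤ 2 * 2 ^ (1 * (Nat.log 2 m + 1)) + 1 + Nat.log 2 m := by
      have := Nat.lt_pow_succ_log_self (b := 2) (by norm_num) m
      rw [one_mul]
      omega
    refine lt_of_le_of_lt (le_trans (L4sp.eval_mono' (q e) h1) (hC e (Nat.log 2 m))) ?_
    refine Nat.pow_lt_pow_right (by norm_num) ?_
    set n := Nat.log 2 m with hn
    have h2 : (n + (C e + e + R) + 1) ^ 1 ≤ (n + (C e + e + R) + 1) ^ k :=
      Nat.pow_le_pow_right (by omega) hk
    rw [pow_one] at h2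
    have hR1 : 1 ≤ R := by rw [hR]; omega
    calc C e * (n + 1) < (C e + e + R) * (n + 1) :=
          Nat.mul_lt_mul_of_pos_right (by omega) (by omega)
      _ ≤ (C e + e + R) * (n + (C e + e + R) + 1) := Nat.mul_le_mul le_rfl (by omega)
      _ ≤ _ := Nat.mul_le_mul le_rfl h2
  have hlim1 : Filter.Tendsto (fun N : ℕ => Real.logb 2 N) Filter.atTop Filter.atTop :=
    (Real.tendsto_logb_atTop (by norm_num)).comp tendsto_natCast_atTop_atTop
  have hlim : Filter.Tendsto (fun N : ℕ => Real.logb 2 (Real.logb 2 N)) Filter.atTop Filter.atTop :=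
    (Real.tendsto_logb_atTop (by norm_num)).comp hlim1
  have hpow2 : Filter.Tendsto (fun L : ℝ => (ε * L) ^ (1 / (k : ℝ))) Filter.atTop Filter.atTop :=
    (tendsto_rpow_atTop (by positivity)).comp (Filter.tendsto_id.const_mul_atTop hε)
  filter_upwards [hlim.eventually (Filter.eventually_ge_atTop 1),
    hlim.eventually (hpow2.eventually (Filter.eventually_ge_atTop 2)),
    hlim1.eventually (Filter.eventually_ge_atTop 1),
    Filter.eventually_ge_atTop 2] with N h1 h2 h3 hN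
  set L := Real.logb 2 (Real.logb 2 N) with hL
  have hL0 : 0 < L := by linarith
  have hℓ : 1 ≤ Nat.log 2 N := Nat.log_pos (by norm_num) hN
  have hlogN : ((Nat.log 2 N : ℕ) : ℝ) ≤ Real.logb 2 N := by
    have := Real.natLog_le_logb N 2
    exact_mod_cast this
  set Y : ℕ := Nat.log 2 (Nat.log 2 N) with hY
  have hYL : (Y : ℝ) ≤ L := by
    have h4 : (Y : ℝ) ≤ Real.logb 2 ((Nat.log 2 N : ℕ) : ℝ) := by
      have := Real.natLog_le_logb (Nat.log 2 N) 2
      exact_mod_cast this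
    refine le_trans h4 (Real.logb_le_logb_of_le (by norm_num) ?_ hlogN)
    exact_mod_cast hℓ
  set g : ℕ := ⌊(ε * L) ^ (1 / (k : ℝ)) / 2⌋₊ with hg
  have hgk : ∀ j : ℕ, R * j ^ k ≤ Y → j ≤ g := by
    intro j hj
    rw [hg]
    refine Nat.le_floor ?_
    have h4 : (R : ℝ) * (j : ℝ) ^ k ≤ L := le_trans (by exact_mod_cast hj) hYL
    have h5 : (2 * (j : ℝ)) ^ k ≤ ε * L := by
      have h6 : 2 ^ k ≤ (R : ℝ) * ε := by
        rwa [div_le_iff₀ hε] at hRr
      calc (2 * (j : ℝ)) ^ k = 2 ^ k * (j : ℝ) ^ k := mul_pow _ _ _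
        _ ≤ (R : ℝ) * ε * (j : ℝ) ^ k := mul_le_mul_of_nonneg_right h6 (by positivity)
        _ = ε * ((R : ℝ) * (j : ℝ) ^ k) := by ring
        _ ≤ ε * L := mul_le_mul_of_nonneg_left h4 hε.le
    have h7 : ((2 * (j : ℝ)) ^ k) ^ (1 / (k : ℝ)) ≤ (ε * L) ^ (1 / (k : ℝ)) :=
      Real.rpow_le_rpow (by positivity) h5 hk1
    rw [one_div, Real.pow_rpow_inv_natCast (by positivity) (by omega), ← one_div] at h7
    linarith
  have hcount := count (fun e => C e + e + R) k R (fun e => by omega) (fun e => by omega) N g hgk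
  have hgL : ((g + 1 : ℕ) : ℝ) ≤ (ε * L) ^ (1 / (k : ℝ)) := by
    have h4 : (g : ℝ) ≤ (ε * L) ^ (1 / (k : ℝ)) / 2 := Nat.floor_le (by positivity)
    push_cast
    linarith
  have hnat : g * 2 ^ (2 ^ g) ≤ 2 ^ (2 ^ (g + 1)) := by
    have h4 : g ≤ 2 ^ g := Nat.lt_two_pow_self.le
    have h5 : g ≤ 2 ^ (2 ^ g) := le_trans h4 Nat.lt_two_pow_self.le
    calc g * 2 ^ (2 ^ g) ≤ 2 ^ (2 ^ g) * 2 ^ (2 ^ g) := Nat.mul_le_mul h5 le_rfl
      _ = 2 ^ (2 ^ (g + 1)) := by rw [← pow_add]; congr 1; ring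
  refine le_trans (show _ ≤ ((2 ^ (2 ^ (g + 1)) : ℕ) : ℝ) by
    exact_mod_cast hcount.trans hnat) ?_
  calc ((2 ^ (2 ^ (g + 1)) : ℕ) : ℝ)
    _ = (2 : ℝ) ^ ((2 : ℝ) ^ ((g + 1 : ℕ) : ℝ)) := by
        rw [Real.rpow_natCast]
        push_cast
        rw [← Real.rpow_natCast 2 (2 ^ (g + 1))]
        push_cast
        rfl
    _ ≤ 2 ^ (2 : ℝ) ^ (ε * L) ^ (1 / k : ℝ) := by
        refine Real.rpow_le_rpow_of_exponent_le (by norm_num) ?_
        exact Real.rpow_le_rpow_of_exponent_le (by norm_num) hgL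

theorem t_spS : St_spS := fun k q ε hk hε => M4_core k q ε hk hε

end Pool.Agent.H752.PL
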